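import Mathlib
import Pool.Agent.X3.PiAlg

/-!
# Algebraic complexity of the digits of `π` and of the numbers algebraic over `ℚ(π)`

The algebraic complexity of degree `r` of the first `L` digits `a_1, …, a_L` is the least `k` such
that the polynomial `D = ∑ a_i X^i` satisfies `P(X, D) ≡ 0 mod X^(L+1)` for some nonzero polynomial
`P` of degree at most `r` in `Y` and at most `k` in `X`.  For `π` it grows linearly in `L`, for
every `r`, uniformly in the base.
-/

set_option autoImplicit false

namespace Pool.Agent.Results.MP_57632f_nt.AlgebraicComplexityOfPi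

open Polynomial Finset

/-- the `i`-th digit of `x` after the point in base `b` -/
noncomputable def digit (b : ℕ) (x : ℝ) (i : ℕ) : ℤ := ⌊x * (b : ℝ) ^ i⌋ % (b : ℤ)

/-- the polynomial `∑ a_i X^i` formed with the first `L` digits -/
noncomputable def digitPoly (b : ℕ) (x : ℝ) (L : ℕ) : ℚ[X] :=
  ∑ i ∈ Icc 1 L, C ((digit b x i : ℤ) : ℚ) * X ^ i

/-- `P(X, ∑ a_i X^i) ≡ 0 mod X^(L+1)` for some nonzero `P` of degree `≤ r` in `Y` and `≤ k` in
`X`, with the digits `a_1, …, a_L` of `x` in base `b` -/
def AlgRelation (b : ℕ) (x : ℝ) (r L k : ℕ) : Prop :=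
  ∃ P : ℚ[X][X], P ≠ 0 ∧ P.natDegree ≤ r ∧ (∀ j, (P.coeff j).natDegree ≤ k) ∧
    X ^ (L + 1) ∣ P.eval (digitPoly b x L)

/-- the algebraic complexity of degree `r` of the first `L` digits -/
noncomputable def algComplexity (b : ℕ) (x : ℝ) (r L : ℕ) : ℕ := sInf {k | AlgRelation b x r L k}

lemma algComplexity_eq (b : ℕ) (x : ℝ) (r L : ℕ) :
    algComplexity b x r L = Pool.Agent.W472.AC.algComplexity b x r L := by
  have e : digitPoly b x L = Pool.Agent.W472.AC.digitPoly b x L := by
    rfl
  unfold algComplexity Pool.Agent.W472.AC.algComplexity AlgRelation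
    Pool.Agent.W472.AC.AlgRelation
  rw [e]

/-- Let `y` be `π`, or any transcendental real number which is algebraic over `ℚ(π)` (for instance
`√π`, `π + √2` or `π^2 / (π + 1)`).  For every degree `r` there are `c > 0` and `L₀` such that for all
`L ≥ L₀` and all bases `b ≥ 2` (for instance `b = 10`) the algebraic complexity of degree `r` of the
first `L` digits of `y` in base `b` is larger than `c L` (and it is at most `L / (r + 1) + 1`). -/
theorem result (y : ℝ) (hy : y = Real.pi ∨ (Transcendental ℤ y ∧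
      IsAlgebraic (Algebra.adjoin ℤ ({Real.pi} : Set ℝ)) y)) (r : ℕ) :
    ∃ c : ℝ, 0 < c ∧ ∃ L₀ : ℕ, ∀ L : ℕ, L₀ ≤ L → ∀ b : ℕ, 2 ≤ b →
      c * L < algComplexity b y r L ∧ (algComplexity b y r L : ℝ) ≤ L / (r + 1) + 1 := by
  have h : Transcendental ℤ y ∧ IsAlgebraic (Algebra.adjoin ℤ ({Real.pi} : Set ℝ)) y := by
    rcases hy with rfl | h
    · refine ⟨?_, ?_⟩
      · rintro ⟨P, hP, h0⟩
        obtain ⟨κ, c, -, hc, hm⟩ := Pool.Agent.TH456.TM.measT_pi P.natDegree
        obtain ⟨H, hH⟩ : ∃ H : ℝ, 1 ≤ H ∧ ∀ j, |(P.coeff j : ℝ)| ≤ H := by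
          refine ⟨1 + ∑ i ∈ P.support, |(P.coeff i : ℝ)|, ?_, fun j => ?_⟩
          · have : 0 ≤ ∑ i ∈ P.support, |(P.coeff i : ℝ)| :=
              Finset.sum_nonneg fun i _ => abs_nonneg _
            linarith
          · by_cases hj : j ∈ P.support
            · have := Finset.single_le_sum (f := fun i => |(P.coeff i : ℝ)|)
                (fun i _ => abs_nonneg _) hj
              linarith
            · rw [notMem_support_iff.1 hj]
              have : 0 ≤ ∑ i ∈ P.support, |(P.coeff i : ℝ)| :=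
                Finset.sum_nonneg fun i _ => abs_nonneg _
              simp only [Int.cast_zero, abs_zero]
              linarith
        have h1 := hm P hP le_rfl H hH.1 hH.2
        have h2 : aeval ((Real.pi : ℝ) : ℂ) P = ((aeval Real.pi P : ℝ) : ℂ) := by
          have := aeval_algebraMap_apply (R := ℤ) (A := ℝ) ℂ Real.pi P
          simpa using this
        rw [h2, h0] at h1
        simp at h1
        linarith
      · exact isAlgebraic_algebraMap
          (⟨Real.pi, Algebra.subset_adjoin rfl⟩ : Algebra.adjoin ℤ ({Real.pi} : Set ℝ))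
    · exact h
  obtain ⟨c, hc, L₀, hL⟩ := Pool.Agent.X3.PiAlg.alg_complexity y h.2 h.1 r
  refine ⟨c, hc, L₀, fun L hL0 b hb => ?_⟩
  rw [algComplexity_eq]
  exact ⟨hL L hL0 b hb, Pool.Agent.W472.AC.algComplexity_le b y r L⟩

end Pool.Agent.Results.MP_57632f_nt.AlgebraicComplexityOfPi
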