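import Mathlib
import Pool.Agent.Y934.Multi
import Pool.Agent.X3.PiMeasure

/-!
# Digits of the numbers `x + m π`

`π` is normal in base `b` if and only if all its multiples `m π` are.  Here are three unconditional
statements on the digits of the numbers `x + m π`, uniformly in the real number `x`.
-/

set_option autoImplicit false

namespace Pool.Agent.Results.MP_57632f_nt.DigitsOfMultiplesOfPi

open Finset

/-- the `i`-th digit after the point of `y` in base `b` -/
noncomputable def digit (b : ℕ) (y : ℝ) (i : ℕ) : ℤ := ⌊y * (b : ℝ) ^ i⌋ % (b : ℤ)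

/-- the digits of `y` at the places `p + 1, …, p + k` are `w 0, …, w (k - 1)` -/
def OccursAt (b k : ℕ) (w : Fin k → Fin b) (y : ℝ) (p : ℕ) : Prop :=
  ∀ s : Fin k, digit b y (p + s + 1) = ((w s : ℕ) : ℤ)

open Classical in
/-- the number of occurrences of the block `w` in `y` starting right after one of the `l` places
`n, …, n + l - 1` -/
noncomputable def occ (b k : ℕ) (w : Fin k → Fin b) (y : ℝ) (n l : ℕ) : ℕ :=
  ((range l).filter (fun j => OccursAt b k w y (n + j))).card

open Classical in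
/-- `n` is a good place for the words of length `L` of the multiples of `α`: for every real `x`,
(1) every word of `L` digits stands right after the place `n` in `x + m α` for at most `2 b` of the
`m < b ^ L`, and (2) for at least one `m < 4 b ^ (L + 1)`; (3) for all `1 ≤ k ≤ L` and `0 < ε ≤ 1`, for
all but at most `4 k b ^ (k + 1) exp (- ε² ⌊(L + 1 - k) / k⌋ / 4) b ^ L` of the `m < b ^ L`, every block
`w` of `k` digits occurs in the `L` digits of `x + m α` after the place `n` the expected number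
`(L + 1 - k) / b ^ k` of times up to an error of `ε (L + 1 - k) + k`. -/
def GoodPlace (b : ℕ) (α : ℝ) (L n : ℕ) : Prop := ∀ x : ℝ,
  (∀ v : Fin L → Fin b,
    ((range (b ^ L)).filter (fun m : ℕ => OccursAt b L v (x + m * α) n)).card ≤ 2 * b) ∧
  (∀ v : Fin L → Fin b, ∃ m < 4 * b ^ (L + 1), OccursAt b L v (x + m * α) n) ∧
  (∀ k : ℕ, 1 ≤ k → k ≤ L → ∀ ε : ℝ, 0 < ε → ε ≤ 1 →
    (((range (b ^ L)).filter (fun m : ℕ => ∃ w : Fin k → Fin b,
      ε * (L + 1 - k : ℕ) + k <
        |(occ b k w (x + m * α) n (L + 1 - k) : ℝ) - (L + 1 - k : ℕ) / (b : ℝ) ^ k|)).card : ℝ)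
      ≤ 4 * k * (b : ℝ) ^ (k + 1) * Real.exp (-(ε ^ 2 / 4) * ((L + 1 - k) / k : ℕ)) * (b : ℝ) ^ L)

/-- (1) There is a constant `C` such that for all bases `b ≥ 2` (for instance `b = 10`), all lengths
`L` and all `N` there is a good place `n` for the words of length `L` of the multiples of `π` with
`N ≤ n ≤ 6.05 N + 5.05 L + C`.

(2) Let `b ≥ 2`, `k ≥ 1` and `0 < ε < 1`. There are `c, C > 0` such that for all real `y`, all
`M ≥ 2` and all `n`, for all but at most `C M ^ (1 - c)` of the integers `0 ≤ m < M` every block of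
`k` digits in base `b` occurs at least
`(1 - ε) b ^ (-k) log_b M log (n / (C log M)) / log 6.05` times at the first `n` places
of `y + m π`.

(3) For every set `W` of words of length `L` and every real `x` there are at most `2 b |W|` numbers
`m < b ^ L` such that from some place on only words from `W` are seen in `x + m π`. -/
theorem result :
    (∃ C : ℝ, ∀ b : ℕ, 2 ≤ b → ∀ L N : ℕ, ∃ n : ℕ, N ≤ n ∧
      (n : ℝ) ≤ 6.05 * N + 5.05 * L + C ∧ GoodPlace b Real.pi L n) ∧
    (∀ b k : ℕ, 2 ≤ b → 1 ≤ k → ∀ ε : ℝ, 0 < ε → ε < 1 →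
      ∃ c C : ℝ, 0 < c ∧ 0 < C ∧ ∀ y : ℝ, ∀ M n : ℕ, 2 ≤ M →
        ({m : ℕ | m < M ∧ ¬ ∀ w : Fin k → Fin b,
          (1 - ε) * ((b : ℝ) ^ k)⁻¹ * Real.logb b M *
            (Real.log (n / (C * Real.log M)) / Real.log 6.05) ≤
          (occ b k w (y + m * Real.pi) 0 n : ℝ)}.ncard : ℝ) ≤ C * (M : ℝ) ^ (1 - c)) ∧
    (∀ b L : ℕ, 2 ≤ b → ∀ (W : Finset (Fin L → Fin b)) (x : ℝ),
      ({m : ℕ | m < b ^ L ∧
        {p : ℕ | ∀ v ∈ W, ¬ OccursAt b L v (x + m * Real.pi) p}.Finite}.ncard) ≤ 2 * b * W.card) := by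
  classical
  obtain ⟨c0, hc0, hm⟩ := Pool.Agent.X3.PiMeasure.pi_measure
  refine ⟨?_, ?_, ?_⟩
  · obtain ⟨C, hC⟩ := Pool.Agent.W226.MP.place_of_measure Real.pi 5.05 c0 irrational_pi
      (by norm_num) hc0 hm
    refine ⟨C, fun b hb L N => ?_⟩
    obtain ⟨n, h1, h2, h3⟩ := hC b hb L N
    refine ⟨n, h1, ?_, h3⟩
    norm_num at h2 ⊢
    exact h2
  · intro b k hb hk ε hε hε1
    obtain ⟨c, C, hc, hC, h⟩ := Pool.Agent.Y934.multi (d := 0) (fun _ => Real.pi) 5.05 c0
      (fun _ => irrational_pi) (by norm_num) hc0 (fun q hq p => ⟨0, hm q hq (p 0)⟩) b k hb hk ε hε hε1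
    refine ⟨c, C, hc, hC, fun y M n hM => ?_⟩
    have h1 := h y M n hM
    norm_num at h1
    refine le_trans ?_ h1
    have hinj : Set.ncard {m : ℕ | m < M ∧ ¬ ∀ w : Fin k → Fin b,
          (1 - ε) * ((b : ℝ) ^ k)⁻¹ * Real.logb b M *
            (Real.log (n / (C * Real.log M)) / Real.log 6.05) ≤
          (occ b k w (y + m * Real.pi) 0 n : ℝ)} ≤
        ((univ : Finset (Fin 1 → Fin M)).filter (fun a => ∃ w : Fin k → Fin b,
        (Pool.Agent.W226.MP.occ b k w (y + ∑ l, ((a l : ℕ) : ℝ) * Real.pi) 0 n : ℝ) <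
        (1 - ε) * (Real.log M / ((b : ℝ) ^ k * Real.log b)) *
          (Real.log (n / (C * Real.log M)) / Real.log (121 / 20)))).card := by
      rw [← Set.ncard_coe_finset]
      refine Set.ncard_le_ncard_of_injOn (fun m => if hm : m < M then (fun _ => ⟨m, hm⟩) else
        (fun _ => ⟨0, by omega⟩)) ?_ ?_ (Finset.finite_toSet _)
      · rintro m ⟨hm1, hm2⟩
        push Not at hm2
        obtain ⟨w, hw⟩ := hm2
        simp only [hm1, dite_true, coe_filter, mem_univ, true_and, Set.mem_ofPred_eq,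
          Fin.sum_univ_one]
        refine ⟨w, ?_⟩
        refine lt_of_le_of_lt (le_of_eq rfl) (lt_of_lt_of_le hw (le_of_eq ?_))
        rw [Real.logb]
        have e : (6.05 : ℝ) = 121 / 20 := by norm_num
        rw [e]
        have hb0 : (b : ℝ) ^ k ≠ 0 := by positivity
        field_simp
      · rintro m ⟨hm1, _⟩ m' ⟨hm1', _⟩ he
        simp only [hm1, hm1', dite_true] at he
        have := congrFun he 0
        simpa using this
    exact_mod_cast hinj
  · intro b L hb W x
    have h := Pool.Agent.W226.MP.finite_words b L hb Real.pi irrational_pi W x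
    refine le_trans (le_of_eq ?_) h
    rw [← Set.ncard_coe_finset]
    congr 1
    ext m
    simp only [coe_filter, mem_range, Set.mem_ofPred_eq]
    rfl

end Pool.Agent.Results.MP_57632f_nt.DigitsOfMultiplesOfPi
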