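import Pool.Agent.TH869.LPD.All
import Pool.Agent.X3.PiMeasure

/-!
# Digits of polynomial multiples of `π`

Let `f ∈ ℤ[X]` be a nonconstant polynomial of degree at most `d` and `h ∈ ℝ[X]` of smaller degree
than `f`.  The digits of most of the numbers `f(l) π + h(l)`, `l < N`, behave normally on certain
windows, whose places are controlled by the measure of irrationality of `π`.
-/

set_option autoImplicit false

namespace Pool.Agent.Results.MP_57632f_nt.PolynomialMultiplesOfPi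

open Polynomial Pool.Agent.W226.MP Pool.Agent.TH869.LPD Finset

/-- For every `d` there are `c, C > 0` and there is a number `C'` such that the following holds for
all bases `b ≥ 2` (for instance `b = 10`), all `f ∈ ℤ[X]` with `1 ≤ deg f ≤ d`, all `h ∈ ℝ[X]` with
`deg h < deg f` and all `N ≥ 1`, where `y l = f(l) π + h(l)` and `a` is the leading coefficient
of `f`.

(1) For every place `S` there is a place `S ≤ s ≤ 6.05 S + 5.05 log_b (N |a|) + C'` such that

(i) the number of `l < N` with `u ≤ {b ^ s y l} < v` is `(v - u) N` up to an error of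
`C N (b / N) ^ c`, for all `0 ≤ u ≤ v ≤ 1`;

(ii) if `1 ≤ k ≤ L` and `b ^ L ≤ (N / b) ^ c`, then for all `0 < ε ≤ 1` and for all but at most
`C k b ^ k exp (- ε² ⌊(L + 1 - k) / k⌋ / 4) N` of the `l < N` every block of `k` digits occurs in the
`L` digits of `y l` after the place `s` the expected number `(L + 1 - k) / b ^ k` of times up to an
error of `ε (L + 1 - k) + k`.

(2) For every `k ≥ 1`, for all but at most `C b ^ k N (b / N) ^ (c / (2 k b ^ k log b))` of the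
`l < N` every block of `k` digits occurs infinitely often in the base `b` expansion of `y l`. -/
theorem result (d : ℕ) : ∃ c C C' : ℝ, 0 < c ∧ 0 < C ∧ ∀ b : ℕ, 2 ≤ b →
    ∀ f : ℤ[X], 1 ≤ f.natDegree → f.natDegree ≤ d → ∀ h : ℝ[X], h.natDegree < f.natDegree →
    ∀ N : ℕ, 1 ≤ N →
    (∀ S : ℕ, ∃ s : ℕ, S ≤ s ∧
      (s : ℝ) ≤ 6.05 * S + 5.05 * (Real.log (N * |(f.leadingCoeff : ℝ)|) / Real.log b) + C' ∧
      (∀ u v : ℝ, 0 ≤ u → u ≤ v → v ≤ 1 →
        |({l : ℕ | l < N ∧ u ≤ Int.fract ((b : ℝ) ^ s * seqv f h Real.pi l) ∧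
            Int.fract ((b : ℝ) ^ s * seqv f h Real.pi l) < v}.ncard : ℝ) - (v - u) * N|
          ≤ C * N * ((b : ℝ) / N) ^ c) ∧
      (∀ k L : ℕ, 1 ≤ k → k ≤ L → (b : ℝ) ^ L ≤ ((N : ℝ) / b) ^ c → ∀ ε : ℝ, 0 < ε → ε ≤ 1 →
        ({l : ℕ | l < N ∧ ∃ w : Fin k → Fin b, ε * (L + 1 - k : ℕ) + k <
          |(occ b k w (seqv f h Real.pi l) s (L + 1 - k) : ℝ) -
            (L + 1 - k : ℕ) / (b : ℝ) ^ k|}.ncard : ℝ)
          ≤ C * k * (b : ℝ) ^ k * Real.exp (-(ε ^ 2 / 4) * ((L + 1 - k) / k : ℕ)) * N)) ∧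
    (∀ k : ℕ, 1 ≤ k →
      ({l : ℕ | l < N ∧ ∃ w : Fin k → Fin b,
        {p : ℕ | OccursAt b k w (seqv f h Real.pi l) p}.Finite}.ncard : ℝ)
        ≤ C * (b : ℝ) ^ k * N * ((b : ℝ) / N) ^ (c / (2 * k * (b : ℝ) ^ k * Real.log b))) := by
  classical
  obtain ⟨c, hc, hc1, K, hK, hmain⟩ := poly_words d
  obtain ⟨c0, hc0, hm⟩ := Pool.Agent.X3.PiMeasure.pi_measure
  refine ⟨c, K, |Real.log c0| / Real.log 2 + 1, hc, by linarith, ?_⟩
  intro b hb f hf1 hf2 h hh N hN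
  obtain ⟨h1, h2⟩ := hmain Real.pi 5.05 c0 (by norm_num) hc0 hm b hb f hf1 hf2 h hh N hN
  refine ⟨fun S => ?_, h2⟩
  obtain ⟨s, a1, a2, a3, a4⟩ := h1 S
  refine ⟨s, a1, ?_, a3, a4⟩
  norm_num at a2 ⊢
  exact a2

end Pool.Agent.Results.MP_57632f_nt.PolynomialMultiplesOfPi
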